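import Mathlib
import Pool.Agent.H372R3.MW1

/-! # The number `Σ 8^(-2^k)` is badly approximable -/

set_option autoImplicit false

namespace Pool.Agent.Y909.NA

open H372R3.MW Filter Topology

theorem det_mat (a : ℤ) : (mat a).det = -1 := by
  simp [mat, Matrix.det_fin_two]

theorem det_M (l : List ℤ) : (M l).det = (-1) ^ l.length := by
  induction l with
  | nil => simp [M]
  | cons a l ih =>
    have : M (a :: l) = mat a * M l := by simp [M]
    rw [this, Matrix.det_mul, det_mat, ih, List.length_cons, pow_succ]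
    ring

theorem fold_len (k : ℕ) : Even (fold (k + 1)).length := by
  simp only [fold, List.length_append, List.length_reverse, List.length_cons, List.length_nil]
  exact ⟨(fold k).length + 1, by ring⟩

/-- the numerators -/
def P (k : ℕ) : ℤ := M (2 :: (fold k ++ [2])) 1 0

theorem P_one : P 1 = 23 := by
  simp [P, M, fold, mat, Matrix.mul_apply, Fin.sum_univ_two]

theorem P_succ (k : ℕ) : P (k + 2) = P (k + 1) * 8 ^ (2 ^ (k + 1)) + 1 := by
  have hd := det_M (2 :: fold (k + 1))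
  have hl : (2 :: fold (k + 1)).length = (fold (k + 1)).length + 1 := rfl
  rw [hl, pow_succ, (fold_len k).neg_one_pow, Matrix.det_fin_two] at hd
  have h1 : M (2 :: (fold (k + 1) ++ [2])) = M (2 :: fold (k + 1)) * mat 2 := by
    rw [show (2 :: (fold (k + 1) ++ [2]) : List ℤ) = (2 :: fold (k + 1)) ++ [2] by simp, M_append]
    simp [M]
  have h2 : M (2 :: (fold (k + 2) ++ [2])) =
      M (2 :: fold (k + 1)) * (mat 3 * mat 1) * (M (2 :: fold (k + 1))).transpose := by
    rw [show (2 :: (fold (k + 2) ++ [2]) : List ℤ) =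
      (2 :: fold (k + 1)) ++ [3, 1] ++ (2 :: fold (k + 1)).reverse by
      simp [fold], M_append, M_append, M_reverse]
    simp [M]
  have h3 := fold_val (k + 1)
  unfold P
  rw [← h3, h2, h1]
  generalize M (2 :: fold (k + 1)) = B at hd ⊢
  simp [mat, Matrix.mul_apply, Fin.sum_univ_two, Matrix.transpose_apply]
  linarith

theorem quot (k : ℕ) (x y : ℤ) (hx : 1 ≤ x) (hx2 : x < 8 ^ (2 ^ k)) :
    (8 : ℤ) ^ (2 ^ k) ≤ 5 * x * |x * P k - y * 8 ^ (2 ^ k)| := by
  have hN : (R (2 :: (fold k ++ [2]))).1 = 8 ^ (2 ^ k) := by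
    rw [(M_R _).1, fold_val]
  have hP : (R (2 :: (fold k ++ [2]))).2 = P k := (M_R _).2
  have := chain_word 3 2 (fold k ++ [2]) (by norm_num) (by
    intro a ha
    rw [List.mem_append, List.mem_singleton] at ha
    rcases ha with ha | ha
    · exact fold_mem k a ha
    · subst ha; norm_num) x y hx (by rw [hN]; exact hx2)
  rw [hN, hP] at this
  linarith

/-- the number `Σ 8^(-2^k)` -/
noncomputable def kem : ℝ := ∑' k : ℕ, (1 / 8 : ℝ) ^ (2 ^ k)

theorem two_pow_ge (j : ℕ) : j ≤ 2 ^ j := (Nat.lt_two_pow_self).le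

theorem sum_kem : Summable (fun k : ℕ => (1 / 8 : ℝ) ^ (2 ^ k)) := by
  refine Summable.of_nonneg_of_le (fun k => by positivity) (fun k => ?_)
    (summable_geometric_of_lt_one (r := (1 / 8 : ℝ)) (by norm_num) (by norm_num))
  exact pow_le_pow_of_le_one (by norm_num) (by norm_num) (two_pow_ge k)

/-- partial sums -/
noncomputable def T (j : ℕ) : ℝ := ∑ k ∈ Finset.range (j + 1), (1 / 8 : ℝ) ^ (2 ^ k)

theorem T_tendsto : Tendsto T atTop (𝓝 kem) :=
  (sum_kem.hasSum.tendsto_sum_nat).comp (tendsto_add_atTop_nat 1)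

theorem P_eq (j : ℕ) : (P (j + 1) : ℝ) / 8 ^ (2 ^ (j + 1)) = 7 / 32 + T (j + 1) := by
  induction j with
  | zero =>
    rw [P_one]
    simp [T, Finset.sum_range_succ]
    norm_num
  | succ j ih =>
    have h1 : T (j + 1 + 1) = T (j + 1) + (1 / 8 : ℝ) ^ (2 ^ (j + 2)) := by
      unfold T
      rw [Finset.sum_range_succ]
    rw [h1, ← add_assoc, ← ih, show j + 1 + 1 = j + 2 from rfl, P_succ]
    push_cast
    have h2 : (8 : ℝ) ^ (2 ^ (j + 2)) = 8 ^ (2 ^ (j + 1)) * 8 ^ (2 ^ (j + 1)) := by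
      rw [← pow_add]
      congr 1
      rw [pow_succ 2 (j + 1)]
      ring
    rw [div_pow, one_pow, h2]
    field_simp

/-- a rational translate of `kem` is badly approximable -/
theorem bad_aux (x y : ℤ) (hx : 1 ≤ x) : 1 / (5 * (x : ℝ)) ≤ |x * (7 / 32 + kem) - y| := by
  have hlim : Tendsto (fun j : ℕ => |(x : ℝ) * (7 / 32 + T (j + 1)) - y|) atTop
      (𝓝 |(x : ℝ) * (7 / 32 + kem) - y|) := by
    refine Tendsto.abs (Tendsto.sub_const (Tendsto.const_mul _ (Tendsto.const_add _ ?_)) _)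
    exact T_tendsto.comp (tendsto_add_atTop_nat 1)
  refine ge_of_tendsto hlim ?_
  have hx0 : (0 : ℝ) < x := by exact_mod_cast (by omega : 0 < x)
  filter_upwards [eventually_ge_atTop x.toNat] with j hj
  have h8 : x < 8 ^ (2 ^ (j + 1)) := by
    have h1 : x ≤ j := by omega
    have h2 : j < 2 ^ (j + 1) := by
      have := @Nat.lt_two_pow_self (j + 1)
      omega
    have h3 : 2 ^ (j + 1) < 8 ^ (2 ^ (j + 1)) := Nat.lt_pow_self (by norm_num)
    have h4 : (j : ℤ) < 8 ^ (2 ^ (j + 1)) := by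
      exact_mod_cast h2.trans h3
    linarith
  have hq := quot (j + 1) x y hx h8
  have hq' : (8 : ℝ) ^ (2 ^ (j + 1)) ≤
      5 * x * |(x : ℝ) * P (j + 1) - y * 8 ^ (2 ^ (j + 1))| := by exact_mod_cast hq
  rw [← P_eq]
  have hQ : (0 : ℝ) < 8 ^ (2 ^ (j + 1)) := by positivity
  have e : (x : ℝ) * (P (j + 1) / 8 ^ (2 ^ (j + 1))) - y =
      (x * P (j + 1) - y * 8 ^ (2 ^ (j + 1))) / 8 ^ (2 ^ (j + 1)) := by
    field_simp
  rw [e, abs_div, abs_of_pos hQ, div_le_div_iff₀ (by positivity) hQ]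
  linarith

/-- `kem` is badly approximable -/
theorem bad (a : ℤ) (q : ℕ) (hq : 1 ≤ q) : (1 / 5120 : ℝ) / (q : ℝ) ^ 2 ≤ |kem - a / q| := by
  have h := bad_aux (32 * q) (32 * a + 7 * q) (by omega)
  push_cast at h
  have hq0 : (0 : ℝ) < q := by exact_mod_cast hq
  have e : (32 * (q : ℝ)) * (7 / 32 + kem) - (32 * a + 7 * q) = 32 * q * (kem - a / q) := by
    field_simp
    ring
  rw [e, abs_mul, abs_of_pos (by positivity : (0 : ℝ) < 32 * q)] at h
  have h2 : 1 / (5 * (32 * (q : ℝ))) / (32 * q) ≤ |kem - a / q| := by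
    rw [div_le_iff₀ (by positivity)]
    linarith
  refine le_trans (le_of_eq ?_) h2
  field_simp
  norm_num

theorem kem_irr : Irrational kem := by
  rintro ⟨r, hr⟩
  have h := bad r.num r.den r.den_pos
  have h1 : (0 : ℝ) < r.den := by exact_mod_cast r.den_pos
  have h2 : kem - (r.num : ℝ) / r.den = 0 := by
    rw [← hr]
    nth_rewrite 1 [← Rat.num_div_den r]
    push_cast
    ring
  rw [h2, abs_zero] at h
  have : (0 : ℝ) < (1 / 5120 : ℝ) / (r.den : ℝ) ^ 2 := by positivity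
  linarith

end Pool.Agent.Y909.NA
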