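import Mathlib
import Pool.Agent.Y909.NA.Word

/-! # Clusters in `n² α` -/

set_option autoImplicit false

namespace Pool.Agent.Y909.NA

open Filter Topology

/-- the `(k+1)`-level correlation of `{n² α}`, `1 ≤ n ≤ N`, with test function `f` -/
noncomputable def corr (α : ℝ) (k : ℕ) (f : (Fin k → ℝ) → ℝ) (N : ℕ) : ℝ :=
  (1 / (N : ℝ)) * ∑ n : Fin (k + 1) ↪ Fin N, ∑' m : Fin k → ℤ,
    f (fun i => (N : ℝ) * (Int.fract (((n i.castSucc : ℕ) + 1 : ℝ) ^ 2 * α) -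
      Int.fract (((n i.succ : ℕ) + 1 : ℝ) ^ 2 * α) + m i))

/-- tails -/
theorem tail_bounds (j : ℕ) : 0 < kem - T j ∧ kem - T j ≤ 2 * (1 / 8 : ℝ) ^ (2 ^ (j + 1)) := by
  have h := sum_kem.sum_add_tsum_nat_add (j + 1)
  have e : kem - T j = ∑' i : ℕ, (1 / 8 : ℝ) ^ (2 ^ (i + (j + 1))) := by
    unfold kem T
    linarith
  have hs : Summable (fun i : ℕ => (1 / 8 : ℝ) ^ (2 ^ (i + (j + 1)))) :=
    (summable_nat_add_iff (j + 1)).mpr sum_kem
  rw [e]
  constructor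
  · exact hs.tsum_pos (fun i => by positivity) 0 (by positivity)
  · have hg : Summable (fun i : ℕ => (1 / 8 : ℝ) ^ (2 ^ (j + 1)) * (1 / 2 : ℝ) ^ i) :=
      (summable_geometric_of_lt_one (by norm_num) (by norm_num)).mul_left _
    have h1 : ∑' i : ℕ, (1 / 8 : ℝ) ^ (2 ^ (i + (j + 1))) ≤
        ∑' i : ℕ, (1 / 8 : ℝ) ^ (2 ^ (j + 1)) * (1 / 2 : ℝ) ^ i := by
      refine hs.tsum_le_tsum (fun i => ?_) hg
      have h2 : 2 ^ (j + 1) + i ≤ 2 ^ (i + (j + 1)) := by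
        have h5 : 2 ^ (i + (j + 1)) = 2 ^ i * 2 ^ (j + 1) := pow_add _ _ _
        have h3 : i + 1 ≤ 2 ^ i := Nat.lt_two_pow_self
        have h4 : 1 ≤ 2 ^ (j + 1) := Nat.one_le_two_pow
        rw [h5]
        calc 2 ^ (j + 1) + i ≤ 2 ^ (j + 1) + i * 2 ^ (j + 1) :=
              Nat.add_le_add_left (Nat.le_mul_of_pos_right i h4) _
          _ = (i + 1) * 2 ^ (j + 1) := by ring
          _ ≤ 2 ^ i * 2 ^ (j + 1) := Nat.mul_le_mul_right _ h3
      calc (1 / 8 : ℝ) ^ (2 ^ (i + (j + 1))) ≤ (1 / 8 : ℝ) ^ (2 ^ (j + 1) + i) :=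
            pow_le_pow_of_le_one (by norm_num) (by norm_num) h2
        _ = (1 / 8 : ℝ) ^ (2 ^ (j + 1)) * (1 / 8 : ℝ) ^ i := pow_add _ _ _
        _ ≤ (1 / 8 : ℝ) ^ (2 ^ (j + 1)) * (1 / 2 : ℝ) ^ i := by
            refine mul_le_mul_of_nonneg_left ?_ (by positivity)
            exact pow_le_pow_left₀ (by norm_num) (by norm_num) i
    rw [tsum_mul_left, tsum_geometric_two] at h1
    linarith

/-- `8^(2^j) T j` is an integer -/
theorem T_int (j : ℕ) : ∃ A : ℤ, (8 : ℝ) ^ (2 ^ j) * T j = A := by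
  refine ⟨∑ k ∈ Finset.range (j + 1), 8 ^ (2 ^ j - 2 ^ k), ?_⟩
  unfold T
  rw [Finset.mul_sum]
  push_cast
  refine Finset.sum_congr rfl fun k hk => ?_
  rw [Finset.mem_range] at hk
  have h1 : 2 ^ k ≤ 2 ^ j := Nat.pow_le_pow_right (by norm_num) (by omega)
  rw [div_pow, one_pow, mul_one_div, pow_sub₀ _ (by norm_num) h1]
  rfl

/-- multiples of `u`, `u² = 8^(2^j)`, are sent close to zero -/
theorem fract_mult (j u m : ℕ) (hu : u ^ 2 = 8 ^ (2 ^ j))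
    (h : ((u * m : ℕ) : ℝ) ^ 2 * (kem - T j) < 1) :
    Int.fract (((u * m : ℕ) : ℝ) ^ 2 * kem) = ((u * m : ℕ) : ℝ) ^ 2 * (kem - T j) := by
  obtain ⟨A, hA⟩ := T_int j
  obtain ⟨h0, -⟩ := tail_bounds j
  have hu' : (u : ℝ) ^ 2 = 8 ^ (2 ^ j) := by exact_mod_cast hu
  have e : ((u * m : ℕ) : ℝ) ^ 2 * kem =
      ((u * m : ℕ) : ℝ) ^ 2 * (kem - T j) + ((m ^ 2 * A : ℤ) : ℝ) := by
    push_cast
    rw [← hA]
    rw [mul_pow, hu']
    ring
  rw [e, Int.fract_add_intCast, Int.fract_eq_self]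
  exact ⟨by positivity, h⟩

/-- the embedding of multiples -/
def emb (u L : ℕ) (hu : 0 < u) : Fin L ↪ Fin (u * L) where
  toFun i := ⟨u * (i + 1) - 1, by
    have h1 : (i : ℕ) + 1 ≤ L := i.2
    have h2 : u * (i + 1) ≤ u * L := Nat.mul_le_mul_left u h1
    have h3 : 1 ≤ u * ((i : ℕ) + 1) := Nat.succ_le_of_lt (Nat.mul_pos hu (Nat.succ_pos _))
    omega⟩
  inj' i i' h := by
    simp only [Fin.mk.injEq] at h
    have h3 : 1 ≤ u * ((i : ℕ) + 1) := Nat.succ_le_of_lt (Nat.mul_pos hu (Nat.succ_pos _))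
    have h4 : 1 ≤ u * ((i' : ℕ) + 1) := Nat.succ_le_of_lt (Nat.mul_pos hu (Nat.succ_pos _))
    have h5 : u * ((i : ℕ) + 1) = u * ((i' : ℕ) + 1) := by omega
    have h6 := Nat.eq_of_mul_eq_mul_left hu h5
    exact Fin.ext (by omega)

theorem emb_val (u L : ℕ) (hu : 0 < u) (i : Fin L) :
    ((emb u L hu i : ℕ) : ℝ) + 1 = ((u * ((i : ℕ) + 1) : ℕ) : ℝ) := by
  have h3 : 1 ≤ u * ((i : ℕ) + 1) := Nat.succ_le_of_lt (Nat.mul_pos hu (Nat.succ_pos _))
  have : (emb u L hu i : ℕ) = u * (i + 1) - 1 := rfl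
  rw [this, Nat.cast_sub h3]
  ring

/-- finite support of the summand -/
theorem summable_m (k : ℕ) (f : (Fin k → ℝ) → ℝ) (hf : HasCompactSupport f) (N : ℕ) (hN : 0 < N)
    (z : Fin k → ℝ) : Summable (fun m : Fin k → ℤ => f (fun i => (N : ℝ) * (z i + m i))) := by
  obtain ⟨B, hB⟩ := hf.isCompact.isBounded.subset_closedBall (0 : Fin k → ℝ)
  have hN' : (1 : ℝ) ≤ N := by exact_mod_cast hN
  apply summable_of_hasFiniteSupport
  refine Set.Finite.subset (Set.Finite.pi' (ι := Fin k) (κ := fun _ => ℤ)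
    (fun i => (Set.finite_Icc (⌊-B - z i⌋) (⌈B - z i⌉)))) ?_
  intro m hm i
  have h1 : (fun i => (N : ℝ) * (z i + m i)) ∈ tsupport f := subset_tsupport _ hm
  have h2 := hB h1
  rw [mem_closedBall_zero_iff] at h2
  have h3 := (norm_le_pi_norm (fun i => (N : ℝ) * (z i + m i)) i).trans h2
  rw [Real.norm_eq_abs, abs_mul, abs_of_pos (by linarith : (0 : ℝ) < N)] at h3
  have h4 : |z i + m i| ≤ B := by
    have : |z i + m i| ≤ N * |z i + m i| := by nlinarith [abs_nonneg (z i + m i)]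
    linarith
  rw [abs_le] at h4
  rw [Set.mem_Icc]
  constructor
  · have : (⌊-B - z i⌋ : ℝ) ≤ m i := (Int.floor_le _).trans (by linarith [h4.1])
    exact_mod_cast this
  · have : (m i : ℝ) ≤ ⌈B - z i⌉ := le_trans (by linarith [h4.2]) (Int.le_ceil _)
    exact_mod_cast this

/-- lower bound for the correlation from the cluster of multiples of `u` -/
theorem corr_lower (j u L k : ℕ) (hu0 : 0 < u) (hL : 0 < L) (hu : u ^ 2 = 8 ^ (2 ^ j))
    (f : (Fin k → ℝ) → ℝ) (hfc : HasCompactSupport f) (hf0 : ∀ y, 0 ≤ f y) (ε c : ℝ)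
    (hc : ∀ y, ‖y‖ ≤ ε → c ≤ f y)
    (h1 : ((u * L : ℕ) : ℝ) ^ 2 * (kem - T j) < 1)
    (hε : ((u * L : ℕ) : ℝ) ^ 3 * (kem - T j) ≤ ε) :
    (L.descFactorial (k + 1) : ℝ) * c / ((u * L : ℕ) : ℝ) ≤ corr kem k f (u * L) := by
  obtain ⟨hδ, -⟩ := tail_bounds j
  set δ := kem - T j with hδd
  have hN : 0 < u * L := Nat.mul_pos hu0 hL
  have hNR : (0 : ℝ) < ((u * L : ℕ) : ℝ) := by exact_mod_cast hN
  unfold corr
  set G : (Fin (k + 1) ↪ Fin (u * L)) → ℝ := fun n => ∑' m : Fin k → ℤ,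
    f (fun i => ((u * L : ℕ) : ℝ) * (Int.fract (((n i.castSucc : ℕ) + 1 : ℝ) ^ 2 * kem) -
      Int.fract (((n i.succ : ℕ) + 1 : ℝ) ^ 2 * kem) + m i)) with hG
  have hG0 : ∀ n, 0 ≤ G n := fun n => tsum_nonneg fun m => hf0 _
  have hGc : ∀ n : Fin (k + 1) ↪ Fin L, c ≤ G (n.trans (emb u L hu0)) := by
    intro n
    have hx : ∀ i : Fin (k + 1), Int.fract
        ((((n.trans (emb u L hu0)) i : ℕ) + 1 : ℝ) ^ 2 * kem) =
        ((u * ((n i : ℕ) + 1) : ℕ) : ℝ) ^ 2 * δ := by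
      intro i
      have e1 : (((n.trans (emb u L hu0)) i : ℕ) + 1 : ℝ) = ((u * ((n i : ℕ) + 1) : ℕ) : ℝ) :=
        emb_val u L hu0 (n i)
      rw [e1]
      apply fract_mult j u _ hu
      refine lt_of_le_of_lt ?_ h1
      refine mul_le_mul_of_nonneg_right ?_ hδ.le
      refine pow_le_pow_left₀ (by positivity) ?_ 2
      exact_mod_cast Nat.mul_le_mul_left u (n i).2
    have hxb : ∀ i : Fin (k + 1), 0 ≤ ((u * ((n i : ℕ) + 1) : ℕ) : ℝ) ^ 2 * δ ∧
        ((u * ((n i : ℕ) + 1) : ℕ) : ℝ) ^ 2 * δ ≤ ((u * L : ℕ) : ℝ) ^ 2 * δ := by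
      intro i
      refine ⟨by positivity, ?_⟩
      refine mul_le_mul_of_nonneg_right ?_ hδ.le
      refine pow_le_pow_left₀ (by positivity) ?_ 2
      exact_mod_cast Nat.mul_le_mul_left u (n i).2
    have hs := summable_m k f hfc (u * L) hN (fun i : Fin k =>
      (Int.fract ((((n.trans (emb u L hu0)) i.castSucc : ℕ) + 1 : ℝ) ^ 2 * kem) -
      Int.fract ((((n.trans (emb u L hu0)) i.succ : ℕ) + 1 : ℝ) ^ 2 * kem)))
    have h2 := hs.le_tsum (0 : Fin k → ℤ) (fun m _ => hf0 _)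
    refine le_trans (hc _ ?_) h2
    rw [pi_norm_le_iff_of_nonneg (le_trans (by positivity) hε)]
    intro i
    rw [Real.norm_eq_abs, abs_mul, abs_of_pos hNR, hx, hx]
    have ha := hxb i.castSucc
    have hb := hxb i.succ
    have h3 : |((u * ((n i.castSucc : ℕ) + 1) : ℕ) : ℝ) ^ 2 * δ -
        ((u * ((n i.succ : ℕ) + 1) : ℕ) : ℝ) ^ 2 * δ + (((0 : Fin k → ℤ) i : ℤ) : ℝ)| ≤
        ((u * L : ℕ) : ℝ) ^ 2 * δ := by
      rw [Pi.zero_apply, Int.cast_zero, add_zero, abs_le]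
      constructor
      · linarith [ha.1, hb.2]
      · linarith [ha.2, hb.1]
    refine le_trans (mul_le_mul_of_nonneg_left h3 hNR.le) ?_
    refine le_trans (le_of_eq ?_) hε
    ring
  have hsum : (L.descFactorial (k + 1) : ℝ) * c ≤ ∑ n : Fin (k + 1) ↪ Fin (u * L), G n := by
    have hinj : Function.Injective
        (fun n : Fin (k + 1) ↪ Fin L => n.trans (emb u L hu0)) := by
      intro a b hab
      ext i
      have := DFunLike.congr_fun hab i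
      simp only [Function.Embedding.trans_apply] at this
      exact congrArg _ ((emb u L hu0).injective this)
    calc (L.descFactorial (k + 1) : ℝ) * c
        = ∑ n : Fin (k + 1) ↪ Fin L, c := by
          rw [Finset.sum_const, Finset.card_univ, Fintype.card_embedding_eq, Fintype.card_fin,
            Fintype.card_fin, nsmul_eq_mul]
      _ ≤ ∑ n : Fin (k + 1) ↪ Fin L, G (n.trans (emb u L hu0)) :=
          Finset.sum_le_sum fun n _ => hGc n
      _ = ∑ n ∈ Finset.univ.map ⟨fun n : Fin (k + 1) ↪ Fin L => n.trans (emb u L hu0), hinj⟩,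
            G n := by
          rw [Finset.sum_map]
          rfl
      _ ≤ ∑ n : Fin (k + 1) ↪ Fin (u * L), G n :=
          Finset.sum_le_univ_sum_of_nonneg hG0
  rw [div_le_iff₀ hNR]
  have e : 1 / ((u * L : ℕ) : ℝ) * (∑ n : Fin (k + 1) ↪ Fin (u * L), G n) * ((u * L : ℕ) : ℝ) =
      ∑ n : Fin (k + 1) ↪ Fin (u * L), G n := by
    field_simp
  rw [e]
  exact hsum

end Pool.Agent.Y909.NA
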