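import Mathlib
import Pool.Agent.Y909.NA.Clus

/-! # Divergence of the correlations -/

set_option autoImplicit false

namespace Pool.Agent.Y909.NA

open Filter Topology

/-- `v j = 2^(2^j)` -/
def v (j : ℕ) : ℕ := 2 ^ (2 ^ j)

theorem v_ge (j : ℕ) : j + 1 ≤ v j := by
  have h1 : j + 1 ≤ 2 ^ j := Nat.lt_two_pow_self
  have h2 : 2 ^ j < 2 ^ (2 ^ j) := Nat.lt_two_pow_self
  unfold v
  omega

theorem v_two (j : ℕ) : 2 ≤ v j := by
  unfold v
  calc 2 = 2 ^ 1 := rfl
    _ ≤ 2 ^ (2 ^ j) := Nat.pow_le_pow_right (by norm_num) Nat.one_le_two_pow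

theorem v_mono : StrictMono v := by
  intro a b h
  unfold v
  exact Nat.pow_lt_pow_right (by norm_num) (Nat.pow_lt_pow_right (by norm_num) h)

theorem v_tendsto : Tendsto (fun j => (v j : ℝ)) atTop atTop :=
  tendsto_natCast_atTop_atTop.comp v_mono.tendsto_atTop

theorem delta_le (j e : ℕ) (n : ℕ) (h : 3 * 2 ^ (n + 1) = e * 2 ^ j) :
    kem - T n ≤ 2 / (v j : ℝ) ^ e := by
  have h1 := (tail_bounds n).2
  have h2 : (1 / 8 : ℝ) ^ (2 ^ (n + 1)) = 1 / (v j : ℝ) ^ e := by
    unfold v
    push_cast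
    rw [← pow_mul, div_pow, one_pow, show (8 : ℝ) = 2 ^ 3 by norm_num, ← pow_mul, h, mul_comm e]
  rw [h2] at h1
  calc kem - T n ≤ 2 * (1 / (v j : ℝ) ^ e) := h1
    _ = _ := by ring

/-- levels at least five -/
theorem diverge (k : ℕ) (hk : 4 ≤ k) (f : (Fin k → ℝ) → ℝ) (hf : Continuous f)
    (hfc : HasCompactSupport f) (hf0 : ∀ y, 0 ≤ f y) (hf1 : 0 < f 0) :
    Tendsto (fun j => corr kem k f (v j ^ 63)) atTop atTop := by
  -- continuity at zero
  obtain ⟨ε, hε, hball⟩ : ∃ ε > 0, ∀ y : Fin k → ℝ, ‖y‖ ≤ ε → f 0 / 2 ≤ f y := by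
    have h1 : ∀ᶠ y in 𝓝 (0 : Fin k → ℝ), f 0 / 2 < f y :=
      hf.continuousAt.eventually_const_lt (by linarith)
    obtain ⟨r, hr, h2⟩ := Metric.eventually_nhds_iff.mp h1
    refine ⟨r / 2, by positivity, fun y hy => (h2 ?_).le⟩
    rw [dist_zero_right]
    linarith
  have hlow : ∀ᶠ j in atTop, f 0 / 2 / 2 ^ (k + 1) * (v j : ℝ) ≤ corr kem k f (v j ^ 63) := by
    filter_upwards [v_tendsto.eventually_ge_atTop (2 / ε), v_tendsto.eventually_ge_atTop (2 * k)]
      with j hj1 hj2
    have hv2 : (2 : ℝ) ≤ v j := by exact_mod_cast v_two j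
    have hv0 : (0 : ℝ) < v j := by linarith
    have hvN : 0 < v j := by have := v_two j; omega
    have hδ : kem - T (j + 5) ≤ 2 / (v j : ℝ) ^ 192 := delta_le j 192 (j + 5) (by
      rw [show j + 5 + 1 = j + 6 from rfl, pow_add]; ring)
    have hδ0 := (tail_bounds (j + 5)).1
    have e63 : v j ^ 48 * v j ^ 15 = v j ^ 63 := by ring
    have hcast : ((v j ^ 48 * v j ^ 15 : ℕ) : ℝ) = (v j : ℝ) ^ 63 := by
      rw [e63]; push_cast; ring
    have hmain := corr_lower (j + 5) (v j ^ 48) (v j ^ 15) k (by positivity) (by positivity)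
      (by
        unfold v
        rw [← pow_mul, ← pow_mul, show (8 : ℕ) = 2 ^ 3 by norm_num, ← pow_mul]
        congr 1
        rw [pow_add]
        ring) f hfc hf0 ε (f 0 / 2) hball
      (by
        rw [hcast]
        calc ((v j : ℝ) ^ 63) ^ 2 * (kem - T (j + 5)) ≤ ((v j : ℝ) ^ 63) ^ 2 * (2 / (v j : ℝ) ^ 192) :=
              mul_le_mul_of_nonneg_left hδ (by positivity)
          _ = 2 / (v j : ℝ) ^ 66 := by
              field_simp
          _ < 1 := by
              rw [div_lt_one (by positivity)]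
              calc (2 : ℝ) < 2 ^ 66 := by norm_num
                _ ≤ (v j : ℝ) ^ 66 := pow_le_pow_left₀ (by norm_num) hv2 66)
      (by
        rw [hcast]
        calc ((v j : ℝ) ^ 63) ^ 3 * (kem - T (j + 5)) ≤ ((v j : ℝ) ^ 63) ^ 3 * (2 / (v j : ℝ) ^ 192) :=
              mul_le_mul_of_nonneg_left hδ (by positivity)
          _ = 2 / (v j : ℝ) ^ 3 := by
              field_simp
          _ ≤ 2 / (v j : ℝ) := by
              refine div_le_div_of_nonneg_left (by norm_num) hv0 ?_
              calc (v j : ℝ) = (v j : ℝ) ^ 1 := (pow_one _).symm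
                _ ≤ (v j : ℝ) ^ 3 := pow_le_pow_right₀ (by linarith) (by norm_num)
          _ ≤ ε := by
              rw [div_le_iff₀ hε] at hj1
              rw [div_le_iff₀ hv0]
              linarith)
    rw [e63] at hmain
    refine le_trans ?_ hmain
    -- the descending factorial
    have hdf : (((v j ^ 15 - k : ℕ) : ℝ)) ^ (k + 1) ≤ ((v j ^ 15).descFactorial (k + 1) : ℝ) := by
      have := Nat.pow_sub_le_descFactorial (v j ^ 15) (k + 1)
      rw [show v j ^ 15 + 1 - (k + 1) = v j ^ 15 - k by omega] at this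
      exact_mod_cast this
    have h15 : (v j : ℝ) ≤ (v j : ℝ) ^ 15 := by
      calc (v j : ℝ) = (v j : ℝ) ^ 1 := (pow_one _).symm
        _ ≤ (v j : ℝ) ^ 15 := pow_le_pow_right₀ (by linarith) (by norm_num)
    have hkle : k ≤ v j ^ 15 := by
      have : (k : ℝ) ≤ ((v j ^ 15 : ℕ) : ℝ) := by
        push_cast
        have : (0 : ℝ) ≤ k := by positivity
        linarith
      exact_mod_cast this
    have hhalf : (v j : ℝ) ^ 15 / 2 ≤ ((v j ^ 15 - k : ℕ) : ℝ) := by
      rw [Nat.cast_sub hkle]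
      push_cast
      linarith
    have hpow : ((v j : ℝ) ^ 15 / 2) ^ (k + 1) ≤ ((v j ^ 15).descFactorial (k + 1) : ℝ) :=
      (pow_le_pow_left₀ (by positivity) hhalf _).trans hdf
    have hbig : (v j : ℝ) ^ 64 ≤ ((v j : ℝ) ^ 15) ^ (k + 1) := by
      rw [← pow_mul]
      exact pow_le_pow_right₀ (by linarith) (by omega)
    rw [Nat.cast_pow, le_div_iff₀ (by positivity)]
    calc f 0 / 2 / 2 ^ (k + 1) * (v j : ℝ) * (v j : ℝ) ^ 63
        = f 0 / 2 * ((v j : ℝ) ^ 64 / 2 ^ (k + 1)) := by ring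
      _ ≤ f 0 / 2 * (((v j : ℝ) ^ 15) ^ (k + 1) / 2 ^ (k + 1)) := by
          refine mul_le_mul_of_nonneg_left ?_ (by linarith)
          exact div_le_div_of_nonneg_right hbig (by positivity)
      _ = f 0 / 2 * ((v j : ℝ) ^ 15 / 2) ^ (k + 1) := by rw [div_pow]
      _ ≤ f 0 / 2 * ((v j ^ 15).descFactorial (k + 1) : ℝ) :=
          mul_le_mul_of_nonneg_left hpow (by linarith)
      _ = _ := by ring
  refine tendsto_atTop_mono' atTop hlow ?_
  exact Tendsto.const_mul_atTop (by positivity) v_tendsto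

/-- test function for the fourth level -/
noncomputable def tent (y : Fin 3 → ℝ) : ℝ := max 0 (min 1 (27 - 351 * ‖y‖))

theorem tent_cont : Continuous tent := by
  unfold tent
  fun_prop

theorem tent_zero (y : Fin 3 → ℝ) (hy : 1 / 13 ≤ ‖y‖) : tent y = 0 := by
  unfold tent
  apply max_eq_left
  exact (min_le_right _ _).trans (by linarith)

theorem tent_supp : HasCompactSupport tent := by
  refine HasCompactSupport.intro (isCompact_closedBall (0 : Fin 3 → ℝ) (1 / 13)) fun y hy => ?_
  rw [mem_closedBall_zero_iff, not_le] at hy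
  exact tent_zero y hy.le

theorem tent_int : ∫ y, tent y ≤ (2 / 13) ^ 3 := by
  have h1 : ∀ y, tent y ≤ (Metric.closedBall (0 : Fin 3 → ℝ) (1 / 13)).indicator (fun _ => 1) y := by
    intro y
    by_cases hy : y ∈ Metric.closedBall (0 : Fin 3 → ℝ) (1 / 13)
    · rw [Set.indicator_of_mem hy]
      unfold tent
      exact max_le (by norm_num) (min_le_left _ _)
    · rw [Set.indicator_of_notMem hy]
      rw [mem_closedBall_zero_iff, not_le] at hy
      exact (tent_zero y hy.le).le
  have h2 : MeasureTheory.volume (Metric.closedBall (0 : Fin 3 → ℝ) (1 / 13)) =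
      ENNReal.ofReal ((2 * (1 / 13)) ^ Fintype.card (Fin 3)) :=
    Real.volume_pi_closedBall _ (by norm_num)
  calc ∫ y, tent y ≤ ∫ y, (Metric.closedBall (0 : Fin 3 → ℝ) (1 / 13)).indicator (fun _ => (1 : ℝ)) y := by
        refine MeasureTheory.integral_mono (tent_cont.integrable_of_hasCompactSupport tent_supp) ?_ h1
        refine (MeasureTheory.integrable_indicator_iff measurableSet_closedBall).mpr ?_
        refine MeasureTheory.integrableOn_const ?_ ?_
        · rw [h2]; exact ENNReal.ofReal_ne_top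
        · norm_num
    _ = (2 / 13) ^ 3 := by
        rw [MeasureTheory.integral_indicator_const _ measurableSet_closedBall]
        rw [MeasureTheory.Measure.real, h2, ENNReal.toReal_ofReal (by positivity)]
        simp
        norm_num

/-- the fourth level -/
theorem four : ¬ Tendsto (fun N => corr kem 3 tent N) atTop (𝓝 (∫ y, tent y)) := by
  intro hlim
  have hseq : Tendsto (fun j => v j ^ 3 * (v j / 3)) atTop atTop := by
    refine tendsto_atTop_mono (f := fun j => j) (fun j => ?_) tendsto_id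
    have h1 := v_ge j
    rcases Nat.eq_zero_or_pos j with rfl | hj
    · exact Nat.zero_le _
    · have h4 : 4 ≤ v j := by
        unfold v
        calc 4 = 2 ^ (2 ^ 1) := rfl
          _ ≤ 2 ^ (2 ^ j) := Nat.pow_le_pow_right (by norm_num)
            (Nat.pow_le_pow_right (by norm_num) hj)
      have h5 : 1 ≤ v j / 3 := by omega
      have h6 : v j ≤ v j ^ 3 := Nat.le_self_pow (by norm_num) _
      calc j ≤ v j := by omega
        _ ≤ v j ^ 3 := h6
        _ ≤ v j ^ 3 * (v j / 3) := Nat.le_mul_of_pos_right _ h5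
  have hl2 := hlim.comp hseq
  have hev : ∀ᶠ j in atTop, (1 / 100 : ℝ) ≤ corr kem 3 tent (v j ^ 3 * (v j / 3)) := by
    filter_upwards [v_tendsto.eventually_ge_atTop 100] with j hj
    have hv100 : 100 ≤ v j := by exact_mod_cast hj
    have hv0 : (0 : ℝ) < v j := by linarith
    have hδ : kem - T (j + 1) ≤ 2 / (v j : ℝ) ^ 12 := delta_le j 12 (j + 1) (by
      rw [show j + 1 + 1 = j + 2 from rfl, pow_add]; ring)
    have hδ0 := (tail_bounds (j + 1)).1
    have hL1 : v j ≤ 3 * (v j / 3) + 2 := by omega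
    have hL2 : 3 * (v j / 3) ≤ v j := by omega
    have hL1' : (v j : ℝ) ≤ 3 * ((v j / 3 : ℕ) : ℝ) + 2 := by exact_mod_cast hL1
    have hL2' : 3 * ((v j / 3 : ℕ) : ℝ) ≤ (v j : ℝ) := by exact_mod_cast hL2
    set L : ℕ := v j / 3 with hL
    have hLpos : 0 < L := by omega
    have hcast : ((v j ^ 3 * L : ℕ) : ℝ) ≤ (v j : ℝ) ^ 4 / 3 := by
      push_cast
      nlinarith [pow_pos hv0 3]
    have hmain := corr_lower (j + 1) (v j ^ 3) L 3 (by positivity) hLpos
      (by
        unfold v
        rw [← pow_mul, ← pow_mul, show (8 : ℕ) = 2 ^ 3 by norm_num, ← pow_mul]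
        congr 1
        rw [pow_add]
        ring) tent tent_supp (fun y => le_max_left _ _) (2 / 27) 1
      (fun y hy => by
        unfold tent
        refine le_max_of_le_right (le_min le_rfl (by linarith)))
      (by
        calc ((v j ^ 3 * L : ℕ) : ℝ) ^ 2 * (kem - T (j + 1))
            ≤ ((v j : ℝ) ^ 4 / 3) ^ 2 * (2 / (v j : ℝ) ^ 12) := by
              refine mul_le_mul (pow_le_pow_left₀ (by positivity) hcast 2) hδ hδ0.le
                (by positivity)
          _ = 2 / 9 / (v j : ℝ) ^ 4 := by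
              field_simp
              norm_num
          _ < 1 := by
              rw [div_lt_one (by positivity)]
              have : (1 : ℝ) ≤ (v j : ℝ) ^ 4 := one_le_pow₀ (by linarith)
              linarith)
      (by
        calc ((v j ^ 3 * L : ℕ) : ℝ) ^ 3 * (kem - T (j + 1))
            ≤ ((v j : ℝ) ^ 4 / 3) ^ 3 * (2 / (v j : ℝ) ^ 12) := by
              refine mul_le_mul (pow_le_pow_left₀ (by positivity) hcast 3) hδ hδ0.le
                (by positivity)
          _ = 2 / 27 := by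
              field_simp
              norm_num)
    refine le_trans ?_ hmain
    have hdf : (((L - 3 : ℕ) : ℝ)) ^ 4 ≤ (L.descFactorial (3 + 1) : ℝ) := by
      have := Nat.pow_sub_le_descFactorial L (3 + 1)
      rw [show L + 1 - (3 + 1) = L - 3 by omega] at this
      exact_mod_cast this
    have hL3 : (v j : ℝ) / 4 ≤ ((L - 3 : ℕ) : ℝ) := by
      rw [Nat.cast_sub (by omega)]
      push_cast
      linarith
    have hpow : ((v j : ℝ) / 4) ^ 4 ≤ (L.descFactorial (3 + 1) : ℝ) :=
      (pow_le_pow_left₀ (by positivity) hL3 _).trans hdf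
    have hpos : (0 : ℝ) < ((v j ^ 3 * L : ℕ) : ℝ) := by
      have : 0 < v j ^ 3 * L := by positivity
      exact_mod_cast this
    rw [mul_one, le_div_iff₀ hpos]
    calc (1 / 100 : ℝ) * ((v j ^ 3 * L : ℕ) : ℝ) ≤ 1 / 100 * ((v j : ℝ) ^ 4 / 3) :=
          mul_le_mul_of_nonneg_left hcast (by norm_num)
      _ ≤ ((v j : ℝ) / 4) ^ 4 := by
          rw [div_pow]
          have : (0 : ℝ) < (v j : ℝ) ^ 4 := by positivity
          norm_num
          linarith
      _ ≤ _ := hpow
  have h1 : (1 / 100 : ℝ) ≤ ∫ y, tent y := ge_of_tendsto hl2 hev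
  have h2 := tent_int
  have h3 : ((2 : ℝ) / 13) ^ 3 < 1 / 100 := by norm_num
  linarith

end Pool.Agent.Y909.NA
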